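import Pool.Agent.Lib.MP_0087d5_lc.NEG.Cor

/-!
From the bipartite perfect matching function to general graphs.
-/

namespace Pool.Agent.NEG

/-- precompose the players' inputs and rename the outputs -/
def Prot.map {X Y O X' Y' O' : Type} (f : X' → X) (g : Y' → Y) (h : O → O') :
    Prot X Y O → Prot X' Y' O'
  | .leaf o => .leaf (h o)
  | .ali a l r => .ali (fun x => a (f x)) (Prot.map f g h l) (Prot.map f g h r)
  | .bob b l r => .bob (fun y => b (g y)) (Prot.map f g h l) (Prot.map f g h r)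

theorem Prot.run_map {X Y O X' Y' O' : Type} (f : X' → X) (g : Y' → Y) (h : O → O')
    (P : Prot X Y O) (x : X') (y : Y') : (P.map f g h).run x y = h (P.run (f x) (g y)) := by
  induction P with
  | leaf o => rfl
  | ali a l r ihl ihr =>
      simp only [Prot.map, Prot.run]
      by_cases hx : a (f x) = true
      · rw [if_pos hx, if_pos hx, ihl]
      · rw [if_neg hx, if_neg hx, ihr]
  | bob b l r ihl ihr =>
      simp only [Prot.map, Prot.run]
      by_cases hx : b (g y) = true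
      · rw [if_pos hx, if_pos hx, ihl]
      · rw [if_neg hx, if_neg hx, ihr]

theorem Prot.depth_map {X Y O X' Y' O' : Type} (f : X' → X) (g : Y' → Y) (h : O → O')
    (P : Prot X Y O) : (P.map f g h).depth = P.depth := by
  induction P with
  | leaf o => rfl
  | ali a l r ihl ihr => simp only [Prot.map, Prot.depth, ihl, ihr]
  | bob b l r ihl ihr => simp only [Prot.map, Prot.depth, ihl, ihr]

/-- the left vertices -/
def lv {n : ℕ} (i : Fin n) : Fin (2 * n) := ⟨i, by omega⟩

/-- the right vertices -/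
def rv {n : ℕ} (j : Fin n) : Fin (2 * n) := ⟨n + j, by omega⟩

theorem lv_inj {n : ℕ} {i i' : Fin n} (h : lv i = lv i') : i = i' := by
  have := congrArg Fin.val h
  exact Fin.ext this

theorem rv_inj {n : ℕ} {i i' : Fin n} (h : rv i = rv i') : i = i' := by
  have := congrArg Fin.val h
  simp only [rv] at this
  exact Fin.ext (by omega)

theorem lv_ne_rv {n : ℕ} (i j : Fin n) : lv i ≠ rv j := by
  intro h
  have := congrArg Fin.val h
  simp only [lv, rv] at this
  omega

theorem lv_or_rv {n : ℕ} (v : Fin (2 * n)) : (∃ i : Fin n, v = lv i) ∨ ∃ j : Fin n, v = rv j := by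
  by_cases h : (v : ℕ) < n
  · exact Or.inl ⟨⟨v, h⟩, rfl⟩
  · refine Or.inr ⟨⟨v - n, by omega⟩, ?_⟩
    apply Fin.ext
    simp only [rv]
    omega

theorem edge_inj {n : ℕ} {p q : Fin n × Fin n} (h : s(lv p.1, rv p.2) = s(lv q.1, rv q.2)) :
    p = q := by
  rcases Sym2.eq_iff.mp h with ⟨h1, h2⟩ | ⟨h1, h2⟩
  · exact Prod.ext (lv_inj h1) (rv_inj h2)
  · exact absurd h1 (lv_ne_rv _ _)

open Classical in
/-- the bipartite graph as a graph on `2 n` vertices -/
noncomputable def emb (n : ℕ) (x : Fin n × Fin n → Bool) (e : Sym2 (Fin (2 * n))) : Bool :=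
  decide (∃ p : Fin n × Fin n, e = s(lv p.1, rv p.2) ∧ x p = true)

open Classical in
/-- the matrix entry of an edge -/
noncomputable def ent (n : ℕ) [Inhabited (Fin n × Fin n)] (e : Sym2 (Fin (2 * n))) :
    Fin n × Fin n :=
  if h : ∃ p : Fin n × Fin n, e = s(lv p.1, rv p.2) then h.choose else default

theorem emb_edge {n : ℕ} (x : Fin n × Fin n → Bool) (p : Fin n × Fin n) :
    emb n x s(lv p.1, rv p.2) = x p := by
  unfold emb
  cases hx : x p
  · rw [decide_eq_false_iff_not]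
    rintro ⟨q, hq, hxq⟩
    rw [edge_inj hq, hxq] at hx
    exact absurd hx (by decide)
  · rw [decide_eq_true_eq]
    exact ⟨p, rfl, hx⟩

theorem ent_edge {n : ℕ} [Inhabited (Fin n × Fin n)] (p : Fin n × Fin n) :
    ent n s(lv p.1, rv p.2) = p := by
  unfold ent
  have h : ∃ q : Fin n × Fin n, s(lv p.1, rv p.2) = s(lv q.1, rv q.2) := ⟨p, rfl⟩
  rw [dif_pos h]
  exact (edge_inj h.choose_spec).symm

theorem emb_pm {n : ℕ} (x : Fin n × Fin n → Bool) : BPM n x ↔ PMG (2 * n) (emb n x) := by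
  constructor
  · rintro ⟨s, hs⟩
    refine ⟨{ verts := Set.univ
              Adj := fun a b => ∃ i, (a = lv i ∧ b = rv (s i)) ∨ (b = lv i ∧ a = rv (s i))
              adj_sub := ?_
              edge_vert := fun _ => Set.mem_univ _
              symm := ⟨?_⟩ }, ?_, ?_⟩
    · rintro a b ⟨i, ⟨rfl, rfl⟩ | ⟨rfl, rfl⟩⟩
      · rw [SimpleGraph.fromEdgeSet_adj]
        refine ⟨?_, lv_ne_rv _ _⟩
        simp only [Set.mem_ofPred_eq]
        rw [emb_edge x (i, s i)]
        exact hs i
      · rw [SimpleGraph.fromEdgeSet_adj]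
        refine ⟨?_, (lv_ne_rv _ _).symm⟩
        simp only [Set.mem_ofPred_eq]
        rw [Sym2.eq_swap, emb_edge x (i, s i)]
        exact hs i
    · rintro a b ⟨i, h | h⟩
      · exact ⟨i, Or.inr h⟩
      · exact ⟨i, Or.inl h⟩
    · intro v _
      rcases lv_or_rv v with ⟨i, rfl⟩ | ⟨j, rfl⟩
      · refine ⟨rv (s i), ⟨i, Or.inl ⟨rfl, rfl⟩⟩, ?_⟩
        rintro w ⟨k, ⟨h1, h2⟩ | ⟨h1, h2⟩⟩
        · rw [h2, lv_inj h1]
        · exact absurd h2 (lv_ne_rv _ _)
      · refine ⟨lv (s.symm j), ⟨s.symm j, Or.inr ⟨rfl, by simp⟩⟩, ?_⟩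
        rintro w ⟨k, ⟨h1, h2⟩ | ⟨h1, h2⟩⟩
        · exact absurd h1.symm (lv_ne_rv _ _)
        · rw [h1, rv_inj h2]
          simp
    · intro v
      exact Set.mem_univ _
  · rintro ⟨M, hM, hsp⟩
    have key : ∀ i : Fin n, ∃ j : Fin n, M.Adj (lv i) (rv j) ∧ x (i, j) = true := by
      intro i
      obtain ⟨w, hw, _⟩ := hM (hsp (lv i))
      have h1 := M.adj_sub hw
      rw [SimpleGraph.fromEdgeSet_adj] at h1
      have h2 := h1.1
      simp only [Set.mem_ofPred_eq, emb, decide_eq_true_eq] at h2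
      obtain ⟨p, hp, hxp⟩ := h2
      rcases Sym2.eq_iff.mp hp with ⟨h3, h4⟩ | ⟨h3, h4⟩
      · refine ⟨p.2, ?_, ?_⟩
        · rw [← h4]
          exact hw
        · rw [lv_inj h3]
          exact hxp
      · exact absurd h3 (lv_ne_rv _ _)
    choose f hf hx using key
    have hinj : Function.Injective f := by
      intro i i' h
      obtain ⟨w, _, hw⟩ := hM (hsp (rv (f i)))
      have h1 := hw (lv i) (hf i).symm
      have h2 := hw (lv i') (by rw [h]; exact (hf i').symm)
      exact lv_inj (h1.trans h2.symm)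
    refine ⟨Equiv.ofBijective f (Finite.injective_iff_bijective.mp hinj), fun i => ?_⟩
    exact hx i

theorem hard_pmg {n K : ℕ} (H : Hard (Fin n × Fin n) (BPM n) n K) :
    Hard (Sym2 (Fin (2 * n))) (PMG (2 * n)) n K := by
  intro T c U hU P hP hrun
  by_cases hn : n = 0
  · omega
  have : NeZero n := ⟨hn⟩
  have : Inhabited (Fin n × Fin n) := ⟨(0, 0)⟩
  refine H T c (fun k x => U k (emb n x)) ?_ (P.map (emb n) (emb n) (ent n))
    (by rw [Prot.depth_map]; exact hP) ?_
  · intro k x y hxy hx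
    refine hU k _ _ ?_ hx
    intro e he
    simp only [emb, decide_eq_true_eq] at he ⊢
    obtain ⟨p, hp, hxp⟩ := he
    exact ⟨p, hp, hxy p hxp⟩
  · intro x y hx hy hk
    rw [Prot.run_map]
    have h := hrun (emb n x) (emb n y) ((emb_pm x).mp hx) (fun h => hy ((emb_pm y).mpr h)) hk
    generalize P.run (emb n x) (emb n y) = e at h ⊢
    have h1 := h.1
    simp only [emb, decide_eq_true_eq] at h1
    obtain ⟨p, rfl, hxp⟩ := h1
    rw [ent_edge]
    refine ⟨hxp, ?_⟩
    have h2 := h.2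
    rw [emb_edge] at h2
    exact h2

/-- both functions, from the core statement for the bipartite function -/
theorem all_of_core (hcore : ∃ K, ∀ n, Hard (Fin n × Fin n) (BPM n) n K) :
    ∃ K, ∀ n, LowerBounds (Fin n × Fin n) (BPM n) n K ∧
      LowerBounds (Sym2 (Fin (2 * n))) (PMG (2 * n)) n K := by
  obtain ⟨K, hK⟩ := hcore
  refine ⟨200 * K, fun n => ?_⟩
  by_cases hn : n = 0
  · subst hn
    refine ⟨⟨?_, ?_, ?_⟩, ⟨?_, ?_, ?_⟩⟩ <;> intros <;> exact Nat.zero_le _
  have : NeZero n := ⟨hn⟩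
  have : NeZero (2 * n) := ⟨by omega⟩
  have : Inhabited (Fin n × Fin n) := ⟨(0, 0)⟩
  have : Inhabited (Sym2 (Fin (2 * n))) := ⟨s(0, 0)⟩
  exact ⟨lowerBounds_of_hard (hK n), lowerBounds_of_hard (hard_pmg (hK n))⟩

end Pool.Agent.NEG
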