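import Pool.Agent.Lib.MP_0087d5_lc.NEG.C2DT
import Pool.Agent.Lib.MP_0087d5_lc.NEG.Gen

/-!
Circuits which decide perfect matching on bipartite graphs given by adjacency matrices, and
the decision tree for the bipartite perfect matching function which they give.
-/

namespace Pool.Agent.NEG

/-- substitute variables and constants for the variables -/
def MF.sub {I J : Type} (f : J → I ⊕ Bool) : MF J → MF I
  | .var j => (match f j with
      | .inl i => .var i
      | .inr b => .const b)
  | .const b => .const b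
  | .and p q => .and (MF.sub f p) (MF.sub f q)
  | .or p q => .or (MF.sub f p) (MF.sub f q)

/-- the values of the substituted variables -/
def pull {I J : Type} (f : J → I ⊕ Bool) (x : I → Bool) (j : J) : Bool :=
  match f j with
  | .inl i => x i
  | .inr b => b

theorem MF.eval_sub {I J : Type} (f : J → I ⊕ Bool) (M : MF J) (x : I → Bool) :
    (M.sub f).eval x = M.eval (pull f x) := by
  induction M with
  | var j =>
      simp only [MF.sub, MF.eval, pull]
      cases h : f j <;> rfl
  | const b => rfl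
  | and p q ihp ihq => simp only [MF.sub, MF.eval, ihp, ihq]
  | or p q ihp ihq => simp only [MF.sub, MF.eval, ihp, ihq]

theorem MF.depth_sub {I J : Type} (f : J → I ⊕ Bool) (M : MF J) :
    (M.sub f).depth = M.depth := by
  induction M with
  | var j =>
      simp only [MF.sub]
      cases h : f j <;> rfl
  | const b => rfl
  | and p q ihp ihq => simp only [MF.sub, MF.depth, ihp, ihq]
  | or p q ihp ihq => simp only [MF.sub, MF.depth, ihp, ihq]

/-- substitution in a decision tree -/
def DT.sub {I J : Type} (f : J → I ⊕ Bool) : DT J → DT I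
  | .leaf M => .leaf (M.sub f)
  | .node m g h l r => .node m (fun i => (g i).sub f) h (DT.sub f l) (DT.sub f r)

theorem DT.eval_sub {I J : Type} (f : J → I ⊕ Bool) (D : DT J) (x : I → Bool) :
    (D.sub f).eval x = D.eval (pull f x) := by
  induction D with
  | leaf M => exact M.eval_sub f x
  | node m g h l r ihl ihr =>
      simp only [DT.sub, DT.eval, MF.eval_sub, ihl, ihr]

theorem DT.fits_sub {I J : Type} (f : J → I ⊕ Bool) (d m t : ℕ) (D : DT J)
    (hD : D.Fits d m t) : (D.sub f).Fits d m t := by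
  induction D generalizing t with
  | leaf M =>
      cases t <;> simpa [DT.sub, DT.Fits, MF.depth_sub] using hD
  | node k g h l r ihl ihr =>
      cases t with
      | zero => exact hD
      | succ t =>
          obtain ⟨h1, h2, h3, h4⟩ := hD
          exact ⟨h1, fun i => by rw [MF.depth_sub]; exact h2 i, ihl t h3, ihr t h4⟩

/-- the position of a pair of vertices in the bipartite adjacency matrix -/
def Pos (n : ℕ) (e : Fin (2 * n) × Fin (2 * n)) (p : Fin n × Fin n) : Prop :=
  (e.1 = lv p.1 ∧ e.2 = rv p.2) ∨ (e.2 = lv p.1 ∧ e.1 = rv p.2)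

theorem pos_unique {n : ℕ} {e : Fin (2 * n) × Fin (2 * n)} {p q : Fin n × Fin n}
    (hp : Pos n e p) (hq : Pos n e q) : p = q := by
  rcases hp with ⟨h1, h2⟩ | ⟨h1, h2⟩ <;> rcases hq with ⟨h3, h4⟩ | ⟨h3, h4⟩
  · exact Prod.ext (lv_inj (h1.symm.trans h3)) (rv_inj (h2.symm.trans h4))
  · exact absurd (h1.symm.trans h4) (lv_ne_rv _ _)
  · exact absurd (h3.symm.trans h2) (lv_ne_rv _ _)
  · exact Prod.ext (lv_inj (h1.symm.trans h3)) (rv_inj (h2.symm.trans h4))

open Classical in
/-- the substitution of the adjacency matrix -/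
noncomputable def sig (n : ℕ) (e : Fin (2 * n) × Fin (2 * n)) : (Fin n × Fin n) ⊕ Bool :=
  if h : ∃ p, Pos n e p then .inl h.choose else .inr false

theorem pull_sig {n : ℕ} (x : Fin n × Fin n → Bool) (e : Fin (2 * n) × Fin (2 * n)) :
    pull (sig n) x e = true ↔ ∃ p, Pos n e p ∧ x p = true := by
  by_cases h : ∃ p, Pos n e p
  · have hs : sig n e = .inl h.choose := by
      unfold sig
      rw [dif_pos h]
    simp only [pull, hs]
    constructor
    · intro hx
      exact ⟨h.choose, h.choose_spec, hx⟩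
    · rintro ⟨p, hp, hx⟩
      rw [pos_unique h.choose_spec hp]
      exact hx
  · have hs : sig n e = .inr false := by
      unfold sig
      rw [dif_neg h]
    simp only [pull, hs]
    constructor
    · intro h'
      exact absurd h' (by decide)
    · rintro ⟨p, hp, _⟩
      exact absurd ⟨p, hp⟩ h

/-- the bipartite graph of a matrix -/
def gr {n : ℕ} (x : Fin n × Fin n → Bool) : SimpleGraph (Fin (2 * n)) where
  Adj a b := ∃ p, Pos n (a, b) p ∧ x p = true
  symm := ⟨by
    rintro a b ⟨p, hp, hx⟩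
    refine ⟨p, ?_, hx⟩
    rcases hp with h | h
    · exact Or.inr h
    · exact Or.inl h⟩
  loopless := ⟨by
    rintro a ⟨p, hp, _⟩
    rcases hp with ⟨h1, h2⟩ | ⟨h1, h2⟩
    · exact lv_ne_rv _ _ (h1.symm.trans h2)
    · exact lv_ne_rv _ _ (h1.symm.trans h2)⟩

theorem gr_bip {n : ℕ} (x : Fin n × Fin n → Bool) (a b : Fin (2 * n)) (h : (gr x).Adj a b) :
    ((a : ℕ) < n ↔ n ≤ (b : ℕ)) := by
  obtain ⟨p, hp, _⟩ := h
  rcases hp with ⟨h1, h2⟩ | ⟨h1, h2⟩
  · simp only at h1 h2
    rw [h1, h2]
    simp only [lv, rv]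
    omega
  · simp only at h1 h2
    rw [h1, h2]
    simp only [lv, rv]
    omega

theorem gr_pm {n : ℕ} (x : Fin n × Fin n → Bool) :
    BPM n x ↔ ∃ M : (gr x).Subgraph, M.IsPerfectMatching := by
  constructor
  · rintro ⟨s, hs⟩
    refine ⟨{ verts := Set.univ
              Adj := fun a b => ∃ i, Pos n (a, b) (i, s i)
              adj_sub := ?_
              edge_vert := fun _ => Set.mem_univ _
              symm := ⟨?_⟩ }, ?_, ?_⟩
    · rintro a b ⟨i, h⟩
      exact ⟨(i, s i), h, hs i⟩
    · rintro a b ⟨i, h⟩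
      refine ⟨i, ?_⟩
      rcases h with h | h
      · exact Or.inr h
      · exact Or.inl h
    · intro v _
      rcases lv_or_rv v with ⟨i, rfl⟩ | ⟨j, rfl⟩
      · refine ⟨rv (s i), ⟨i, Or.inl ⟨rfl, rfl⟩⟩, ?_⟩
        rintro w ⟨k, ⟨h1, h2⟩ | ⟨h1, h2⟩⟩
        · rw [lv_inj h1]
          exact h2
        · exact absurd h2 (lv_ne_rv _ _)
      · refine ⟨lv (s.symm j), ⟨s.symm j, Or.inr ⟨rfl, by simp⟩⟩, ?_⟩
        rintro w ⟨k, ⟨h1, h2⟩ | ⟨h1, h2⟩⟩
        · exact absurd h1.symm (lv_ne_rv _ _)
        · rw [rv_inj h2]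
          simpa using h1
    · intro v
      exact Set.mem_univ _
  · rintro ⟨M, hM, hsp⟩
    have key : ∀ i : Fin n, ∃ j : Fin n, M.Adj (lv i) (rv j) ∧ x (i, j) = true := by
      intro i
      obtain ⟨w, hw, _⟩ := hM (hsp (lv i))
      obtain ⟨p, hp, hxp⟩ := M.adj_sub hw
      rcases hp with ⟨h3, h4⟩ | ⟨h3, h4⟩
      · refine ⟨p.2, ?_, ?_⟩
        · rw [← show w = rv p.2 from h4]
          exact hw
        · rw [lv_inj h3]
          exact hxp
      · exact absurd h4 (lv_ne_rv _ _)
    choose f hf hx using key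
    have hinj : Function.Injective f := by
      intro i i' h
      obtain ⟨w, _, hw⟩ := hM (hsp (rv (f i)))
      have h1 := hw (lv i) (hf i).symm
      have h2 := hw (lv i') (by rw [h]; exact (hf i').symm)
      exact lv_inj (h1.trans h2.symm)
    refine ⟨Equiv.ofBijective f (Finite.injective_iff_bijective.mp hinj), fun i => ?_⟩
    exact hx i

/-- the decision tree of a circuit which decides perfect matching -/
theorem dt_of_circuit {G : Type} [Finite G] {n : ℕ}
    (C : Circuit (Fin (2 * n) × Fin (2 * n)) G) (d t m : ℕ) (hC : C.DepthLE d)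
    (ht : {g | ¬ C.Plain g}.ncard ≤ t) (hm : ∀ g, ¬ C.Plain g → C.arity g ≤ m)
    (hPM : DecidesPM n C) :
    ∃ (D : DT (Fin n × Fin n)) (k : ℕ), k ≤ t ∧ D.Fits d m k ∧
      ∀ x, BPM n x ↔ D.eval x = true := by
  classical
  obtain ⟨hex, D, k, hk, hD, hDe⟩ := exists_dt C d t m hC ht hm
  refine ⟨D.sub (sig n), k, hk, DT.fits_sub _ d m k D hD, fun x => ?_⟩
  rw [DT.eval_sub]
  have hadj : (fun e : Fin (2 * n) × Fin (2 * n) => decide ((gr x).Adj e.1 e.2)) =
      pull (sig n) x := by
    funext e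
    rw [Bool.eq_iff_iff, decide_eq_true_eq, pull_sig]
    rfl
  obtain ⟨v, hv⟩ := hex (pull (sig n) x)
  rw [hDe _ v hv]
  have h1 := hPM (gr x) (gr_bip x) v (by
    have h3 : (fun e : Fin (2 * n) × Fin (2 * n) => @decide ((gr x).Adj e.1 e.2)
        (Classical.propDecidable _)) = pull (sig n) x := by
      rw [← hadj]
    rw [h3]
    exact hv)
  rw [gr_pm]
  exact h1.symm

end Pool.Agent.NEG
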