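import Pool.Agent.Lib.MP_0087d5_lc.NEG.Prot

/-!
Decision trees whose queries are arbitrary functions of monotone formulas.
-/

namespace Pool.Agent.NEG

/-- a decision tree: an inner node asks an arbitrary function `h` of the values of `m`
monotone formulas (answer `true` goes to `r`); a leaf outputs the value of a monotone formula -/
inductive DT (I : Type) : Type where
  | leaf (M : MF I) : DT I
  | node (m : ℕ) (g : Fin m → MF I) (h : (Fin m → Bool) → Bool) (l r : DT I) : DT I

namespace DT

variable {I : Type}

/-- the value of a decision tree -/
def eval : DT I → (I → Bool) → Bool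
  | leaf M, x => M.eval x
  | node _ g h l r, x => if h (fun i => (g i).eval x) = true then r.eval x else l.eval x

/-- the tree has height at most `t`, all queries use at most `m` formulas, and all formulas
have depth at most `d` -/
def Fits (d m : ℕ) : ℕ → DT I → Prop
  | _, leaf M => M.depth ≤ d
  | 0, node _ _ _ _ _ => False
  | t + 1, node k g _ l r => k ≤ m ∧ (∀ i, (g i).depth ≤ d) ∧ Fits d m t l ∧ Fits d m t r

end DT

end Pool.Agent.NEG
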