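import Pool.Agent.Lib.MP_0087d5_lc.NEG.Prot

/-!
A formula with `t` non-monotone gates is a function of at most `6 t + 1` monotone functions
of no larger depth.
-/

namespace Pool.Agent.NEG

variable {I : Type}

theorem mk_mono (f : Bool → Bool → Bool) (hf : Mon2 f) (P Q : MF I) :
    ∃ R : MF I, R.depth ≤ max P.depth Q.depth + 1 ∧
      ∀ x, R.eval x = f (P.eval x) (Q.eval x) := by
  cases h11 : f true true
  · -- constant false
    refine ⟨.const false, by simp [MF.depth], fun x => ?_⟩
    have h : ∀ a b, f a b = false := by
      intro a b
      by_contra hc
      have h1 : f a b = true := by simpa using hc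
      have := hf a b true true (fun _ => rfl) (fun _ => rfl) h1
      rw [h11] at this
      exact absurd this (by decide)
    simp [MF.eval, h]
  · cases h00 : f false false
    · cases h10 : f true false
      · cases h01 : f false true
        · refine ⟨.and P Q, by simp [MF.depth], fun x => ?_⟩
          simp only [MF.eval]
          cases P.eval x <;> cases Q.eval x <;> simp [h11, h00, h10, h01]
        · refine ⟨Q, by omega, fun x => ?_⟩
          cases P.eval x <;> cases Q.eval x <;> simp [h11, h00, h10, h01]
      · cases h01 : f false true
        · refine ⟨P, by omega, fun x => ?_⟩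
          cases P.eval x <;> cases Q.eval x <;> simp [h11, h00, h10, h01]
        · refine ⟨.or P Q, by simp [MF.depth], fun x => ?_⟩
          simp only [MF.eval]
          cases P.eval x <;> cases Q.eval x <;> simp [h11, h00, h10, h01]
    · refine ⟨.const true, by simp [MF.depth], fun x => ?_⟩
      have h : ∀ a b, f a b = true := by
        intro a b
        exact hf false false a b (fun h => absurd h (by decide))
          (fun h => absurd h (by decide)) h00
      simp [MF.eval, h]

/-- a formula without non-monotone gates is a monotone formula -/
theorem mono_of_nm (E : BF I) (h : E.nm = 0) :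
    ∃ M : MF I, M.depth ≤ E.depth ∧ ∀ x, M.eval x = E.eval x := by
  induction E with
  | var i => exact ⟨.var i, by simp [MF.depth, BF.depth], fun x => rfl⟩
  | const b => exact ⟨.const b, by simp [MF.depth, BF.depth], fun x => rfl⟩
  | gate f p q ihp ihq =>
      simp only [BF.nm] at h
      have hp : p.nm = 0 := by omega
      have hq : q.nm = 0 := by omega
      have hf : Mon2 f := by
        by_contra hc
        rw [if_neg hc] at h
        omega
      obtain ⟨P, hP, hPe⟩ := ihp hp
      obtain ⟨Q, hQ, hQe⟩ := ihq hq
      obtain ⟨R, hR, hRe⟩ := mk_mono f hf P Q
      refine ⟨R, ?_, fun x => ?_⟩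
      · simp only [BF.depth]
        omega
      · rw [hRe, hPe, hQe]
        rfl

/-- the list `L` determines the function `F` -/
def Dets (L : List (MF I)) (F : (I → Bool) → Bool) : Prop :=
  ∀ x y, (∀ g ∈ L, g.eval x = g.eval y) → F x = F y

/-- the decomposition: `E` is `B` or `A`, depending on a function `z` of few monotone
functions -/
theorem decomp (E : BF I) (h : 1 ≤ E.nm) :
    ∃ (A B : MF I) (L : List (MF I)) (z : (I → Bool) → Bool),
      A.depth ≤ E.depth ∧ B.depth ≤ E.depth ∧ (∀ g ∈ L, g.depth ≤ E.depth) ∧
      L.length + 4 ≤ 6 * E.nm ∧ Dets L z ∧
      ∀ x, E.eval x = if z x = true then B.eval x else A.eval x := by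
  induction E with
  | var i => simp [BF.nm] at h
  | const b => simp [BF.nm] at h
  | gate f p q ihp ihq =>
      -- every subformula is determined by a short list
      have key : ∀ r : BF I, (1 ≤ r.nm → ∃ (A B : MF I) (L : List (MF I))
          (z : (I → Bool) → Bool),
          A.depth ≤ r.depth ∧ B.depth ≤ r.depth ∧ (∀ g ∈ L, g.depth ≤ r.depth) ∧
          L.length + 4 ≤ 6 * r.nm ∧ Dets L z ∧
          ∀ x, r.eval x = if z x = true then B.eval x else A.eval x) →
          ∃ L : List (MF I), (∀ g ∈ L, g.depth ≤ r.depth) ∧ Dets L r.eval ∧
            L.length ≤ max 1 (6 * r.nm - 2) := by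
        intro r hr
        by_cases h1 : 1 ≤ r.nm
        · obtain ⟨A, B, L, z, hA, hB, hL, hlen, hz, he⟩ := hr h1
          refine ⟨A :: B :: L, ?_, ?_, ?_⟩
          · intro g hg
            rcases List.mem_cons.mp hg with rfl | hg
            · exact hA
            rcases List.mem_cons.mp hg with rfl | hg
            · exact hB
            exact hL g hg
          · intro x y hxy
            rw [he x, he y, hz x y (fun g hg => hxy g (by simp [hg])),
              hxy A (by simp), hxy B (by simp)]
          · simp only [List.length_cons]
            omega
        · obtain ⟨M, hM, hMe⟩ := mono_of_nm r (by omega)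
          refine ⟨[M], ?_, ?_, ?_⟩
          · intro g hg
            rw [List.mem_singleton.mp hg]
            exact hM
          · intro x y hxy
            rw [← hMe, ← hMe]
            exact hxy M (by simp)
          · simp
      by_cases hf : Mon2 f
      · have hnm : (BF.gate f p q).nm = p.nm + q.nm := by
          simp only [BF.nm]
          rw [if_pos hf]
          omega
        by_cases hp : 1 ≤ p.nm
        · by_cases hq : 1 ≤ q.nm
          · -- both have non-monotone gates
            obtain ⟨L1, h1, h1d, h1l⟩ := key p ihp
            obtain ⟨L2, h2, h2d, h2l⟩ := key q ihq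
            refine ⟨.const false, .const true, L1 ++ L2, (BF.gate f p q).eval, by
              simp [MF.depth], by simp [MF.depth], ?_, ?_, ?_, ?_⟩
            · intro g hg
              simp only [BF.depth]
              rcases List.mem_append.mp hg with hg | hg
              · have := h1 g hg
                omega
              · have := h2 g hg
                omega
            · rw [hnm, List.length_append]
              omega
            · intro x y hxy
              simp only [BF.eval]
              rw [h1d x y (fun g hg => hxy g (by simp [hg])),
                h2d x y (fun g hg => hxy g (by simp [hg]))]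
            · intro x
              cases hx : (BF.gate f p q).eval x <;> simp [MF.eval]
          · -- only `p` has non-monotone gates
            obtain ⟨A, B, L, z, hA, hB, hL, hlen, hz, he⟩ := ihp hp
            obtain ⟨M, hM, hMe⟩ := mono_of_nm q (by omega)
            obtain ⟨A', hA', hA'e⟩ := mk_mono f hf A M
            obtain ⟨B', hB', hB'e⟩ := mk_mono f hf B M
            refine ⟨A', B', L, z, ?_, ?_, ?_, ?_, hz, ?_⟩
            · simp only [BF.depth]; omega
            · simp only [BF.depth]; omega
            · intro g hg
              simp only [BF.depth]
              have := hL g hg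
              omega
            · rw [hnm]; omega
            · intro x
              simp only [BF.eval]
              rw [he x, hA'e, hB'e, ← hMe]
              by_cases hzx : z x = true
              · rw [if_pos hzx, if_pos hzx]
              · rw [if_neg hzx, if_neg hzx]
        · by_cases hq : 1 ≤ q.nm
          · obtain ⟨A, B, L, z, hA, hB, hL, hlen, hz, he⟩ := ihq hq
            obtain ⟨M, hM, hMe⟩ := mono_of_nm p (by omega)
            obtain ⟨A', hA', hA'e⟩ := mk_mono f hf M A
            obtain ⟨B', hB', hB'e⟩ := mk_mono f hf M B
            refine ⟨A', B', L, z, ?_, ?_, ?_, ?_, hz, ?_⟩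
            · simp only [BF.depth]; omega
            · simp only [BF.depth]; omega
            · intro g hg
              simp only [BF.depth]
              have := hL g hg
              omega
            · rw [hnm]; omega
            · intro x
              simp only [BF.eval]
              rw [he x, hA'e, hB'e, ← hMe]
              by_cases hzx : z x = true
              · rw [if_pos hzx, if_pos hzx]
              · rw [if_neg hzx, if_neg hzx]
          · rw [hnm] at h
            omega
      · -- the gate itself is not monotone
        have hnm : (BF.gate f p q).nm = p.nm + q.nm + 1 := by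
          simp only [BF.nm]
          rw [if_neg hf]
        obtain ⟨L1, h1, h1d, h1l⟩ := key p ihp
        obtain ⟨L2, h2, h2d, h2l⟩ := key q ihq
        refine ⟨.const false, .const true, L1 ++ L2, (BF.gate f p q).eval, by
          simp [MF.depth], by simp [MF.depth], ?_, ?_, ?_, ?_⟩
        · intro g hg
          simp only [BF.depth]
          rcases List.mem_append.mp hg with hg | hg
          · have := h1 g hg
            omega
          · have := h2 g hg
            omega
        · rw [hnm, List.length_append]
          omega
        · intro x y hxy
          simp only [BF.eval]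
          rw [h1d x y (fun g hg => hxy g (by simp [hg])),
            h2d x y (fun g hg => hxy g (by simp [hg]))]
        · intro x
          cases hx : (BF.gate f p q).eval x <;> simp [MF.eval]

/-- a formula with `t` non-monotone gates is determined by `6 t + 1` monotone functions -/
theorem form_dets (E : BF I) :
    ∃ L : List (MF I), (∀ g ∈ L, g.depth ≤ E.depth) ∧ Dets L E.eval ∧
      L.length ≤ 6 * E.nm + 1 := by
  by_cases h1 : 1 ≤ E.nm
  · obtain ⟨A, B, L, z, hA, hB, hL, hlen, hz, he⟩ := decomp E h1
    refine ⟨A :: B :: L, ?_, ?_, ?_⟩
    · intro g hg
      rcases List.mem_cons.mp hg with rfl | hg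
      · exact hA
      rcases List.mem_cons.mp hg with rfl | hg
      · exact hB
      exact hL g hg
    · intro x y hxy
      rw [he x, he y, hz x y (fun g hg => hxy g (by simp [hg])),
        hxy A (by simp), hxy B (by simp)]
    · simp only [List.length_cons]
      omega
  · obtain ⟨M, hM, hMe⟩ := mono_of_nm E (by omega)
    refine ⟨[M], ?_, ?_, ?_⟩
    · intro g hg
      rw [List.mem_singleton.mp hg]
      exact hM
    · intro x y hxy
      rw [← hMe, ← hMe]
      exact hxy M (by simp)
    · simp

end Pool.Agent.NEG
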