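import Pool.Agent.Lib.MP_0087d5_lc.NEG.CDef
import Pool.Agent.Lib.MP_0087d5_lc.NEG.DT
import Pool.Agent.Lib.MP_0087d5_lc.NEG.Form

/-!
From circuits with special gates to decision trees.
-/

namespace Pool.Agent.NEG

variable {I G : Type}

/-- every input has a consistent assignment -/
theorem exists_consistent (C : Circuit I G) (lev : G → ℕ) (d : ℕ) (hd : ∀ g, lev g ≤ d)
    (hlev : ∀ g i g', C.src g i = Sum.inr g' → lev g' < lev g) (x : I → Bool) :
    ∃ v, C.Consistent x v := by
  classical
  have key : ∀ l : ℕ, ∃ v : G → Bool, ∀ g, lev g ≤ l →
      v g = C.fn g (fun i => Circuit.node x v (C.src g i)) := by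
    intro l
    induction l with
    | zero =>
        refine ⟨fun g => C.fn g (fun i => Circuit.node x (fun _ => false) (C.src g i)), ?_⟩
        intro g hg
        have hz : ∀ i, Circuit.node x (fun _ => false) (C.src g i) =
            Circuit.node x (fun g => C.fn g (fun i =>
              Circuit.node x (fun _ => false) (C.src g i))) (C.src g i) := by
          intro i
          cases h : C.src g i with
          | inl a => cases a <;> rfl
          | inr g' =>
              have := hlev g i g' h
              omega
        simp only []
        congr 1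
        funext i
        exact hz i
    | succ l ih =>
        obtain ⟨v, hv⟩ := ih
        refine ⟨fun g => if lev g ≤ l then v g else
          C.fn g (fun i => Circuit.node x v (C.src g i)), ?_⟩
        intro g hg
        have hz : ∀ i, Circuit.node x v (C.src g i) =
            Circuit.node x (fun g => if lev g ≤ l then v g else
              C.fn g (fun i => Circuit.node x v (C.src g i))) (C.src g i) := by
          intro i
          cases h : C.src g i with
          | inl a => cases a <;> rfl
          | inr g' =>
              have := hlev g i g' h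
              simp only [Circuit.node]
              rw [if_pos (by omega)]
        have hz' : (fun i => Circuit.node x v (C.src g i)) =
            fun i => Circuit.node x (fun g => if lev g ≤ l then v g else
              C.fn g (fun i => Circuit.node x v (C.src g i))) (C.src g i) := funext hz
        rw [← hz']
        by_cases hgl : lev g ≤ l
        · simp only [if_pos hgl]
          exact hv g hgl
        · simp only [if_neg hgl]
  obtain ⟨v, hv⟩ := key d
  exact ⟨v, fun g => hv g (hd g)⟩

/-- a monotone function of at most two monotone formulas -/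
theorem mk_fn (a : ℕ) (ha : a ≤ 2) (f : (Fin a → Bool) → Bool)
    (hf : ∀ u w : Fin a → Bool, (∀ i, u i = true → w i = true) → f u = true → f w = true)
    (P : Fin a → MF I) (D : ℕ) (hP : ∀ i, (P i).depth ≤ D) :
    ∃ R : MF I, R.depth ≤ D + 1 ∧ ∀ x, R.eval x = f (fun i => (P i).eval x) := by
  match a, ha, f, hf, P, hP with
  | 0, _, f, _, P, _ =>
      refine ⟨.const (f Fin.elim0), by simp [MF.depth], fun x => ?_⟩
      simp only [MF.eval]
      congr 1
      funext i
      exact i.elim0
  | 1, _, f, hf, P, hP =>
      obtain ⟨R, hR, hRe⟩ := mk_mono (fun b _ => f (fun _ => b)) (by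
        intro b c b' c' hb _ h
        exact hf _ _ (fun _ => hb) h) (P 0) (P 0)
      refine ⟨R, ?_, fun x => ?_⟩
      · have := hP 0
        omega
      · rw [hRe]
        congr 1
        funext i
        rw [Subsingleton.elim i 0]
  | 2, _, f, hf, P, hP =>
      obtain ⟨R, hR, hRe⟩ := mk_mono (fun b c => f (fun i => if i = 0 then b else c)) (by
        intro b c b' c' hb hc h
        refine hf _ _ (fun i => ?_) h
        by_cases hi : i = 0
        · simpa [hi] using hb
        · simpa [hi] using hc) (P 0) (P 1)
      refine ⟨R, ?_, fun x => ?_⟩
      · have h0 := hP 0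
        have h1 := hP 1
        omega
      · rw [hRe]
        congr 1
        funext i
        fin_cases i <;> simp

/-- the value of a gate as a monotone formula when the special gates below have the
values `z` -/
theorem exists_exp (C : Circuit I G) (lev : G → ℕ) (hpos : ∀ g, 1 ≤ lev g)
    (hlev : ∀ g i g', C.src g i = Sum.inr g' → lev g' < lev g) (z : G → Bool) (l : ℕ) :
    ∀ g, lev g ≤ l → ∃ M : MF I, M.depth ≤ l ∧ ∀ x v, C.Consistent x v →
      (∀ s, ¬ C.Plain s → lev s ≤ l → z s = v s) → M.eval x = v g := by
  induction l with
  | zero =>
      intro g hg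
      have := hpos g
      omega
  | succ l ih =>
      intro g hg
      by_cases hp : C.Plain g
      · have hsrc : ∀ i : Fin (C.arity g), ∃ M : MF I, M.depth ≤ l ∧ ∀ x v,
            C.Consistent x v → (∀ s, ¬ C.Plain s → lev s ≤ l → z s = v s) →
            M.eval x = Circuit.node x v (C.src g i) := by
          intro i
          cases h : C.src g i with
          | inl a =>
              cases a with
              | inl j => exact ⟨.var j, by simp [MF.depth], fun x v _ _ => rfl⟩
              | inr b => exact ⟨.const b, by simp [MF.depth], fun x v _ _ => rfl⟩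
          | inr g' =>
              have h1 := hlev g i g' h
              obtain ⟨M, hM, hMe⟩ := ih g' (by omega)
              exact ⟨M, hM, fun x v hx hz => hMe x v hx hz⟩
        choose P hP hPe using hsrc
        obtain ⟨R, hR, hRe⟩ := mk_fn (C.arity g) hp.1 (C.fn g) hp.2 P l hP
        refine ⟨R, hR, fun x v hx hz => ?_⟩
        rw [hRe, hx g]
        congr 1
        funext i
        exact hPe i x v hx (fun s hs hl => hz s hs (by omega))
      · exact ⟨.const (z g), by simp [MF.depth], fun x v _ hz => hz g hp hg⟩

/-- the value of a node as a monotone formula -/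
theorem exists_exp_node (C : Circuit I G) (lev : G → ℕ) (hpos : ∀ g, 1 ≤ lev g)
    (hlev : ∀ g i g', C.src g i = Sum.inr g' → lev g' < lev g) (z : G → Bool) (l : ℕ)
    (nd : (I ⊕ Bool) ⊕ G) (hnd : ∀ g, nd = Sum.inr g → lev g ≤ l) :
    ∃ M : MF I, M.depth ≤ l ∧ ∀ x v, C.Consistent x v →
      (∀ s, ¬ C.Plain s → lev s ≤ l → z s = v s) → M.eval x = Circuit.node x v nd := by
  cases nd with
  | inl a =>
      cases a with
      | inl j => exact ⟨.var j, by simp [MF.depth], fun x v _ _ => rfl⟩
      | inr b => exact ⟨.const b, by simp [MF.depth], fun x v _ _ => rfl⟩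
  | inr g =>
      obtain ⟨M, hM, hMe⟩ := exists_exp C lev hpos hlev z l g (hnd g rfl)
      exact ⟨M, hM, hMe⟩

open Classical in
/-- the decision tree which asks the special gates in the order of the list `L` -/
theorem exists_dt_list (C : Circuit I G) (lev : G → ℕ) (d m : ℕ)
    (hpos : ∀ g, 1 ≤ lev g) (hd : ∀ g, lev g ≤ d)
    (hlev : ∀ g i g', C.src g i = Sum.inr g' → lev g' < lev g)
    (L : List G) (hsort : L.Pairwise (fun a b => lev a ≤ lev b))
    (hm : ∀ s ∈ L, C.arity s ≤ m) (z : G → Bool) (S : Set G)
    (hS : ∀ s, ¬ C.Plain s → s ∈ S ∨ s ∈ L) :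
    ∃ D : DT I, D.Fits d m L.length ∧ ∀ x v, C.Consistent x v →
      (∀ s ∈ S, z s = v s) → D.eval x = v C.out := by
  induction L generalizing z S with
  | nil =>
      obtain ⟨M, hM, hMe⟩ := exists_exp C lev hpos hlev z d C.out (hd _)
      refine ⟨.leaf M, hM, fun x v hx hz => ?_⟩
      refine hMe x v hx (fun s hs _ => hz s ?_)
      rcases hS s hs with h | h
      · exact h
      · exact absurd h (List.not_mem_nil)
  | cons s rest ih =>
      rw [List.pairwise_cons] at hsort
      have hnode : ∀ i : Fin (C.arity s), ∃ M : MF I, M.depth ≤ lev s - 1 ∧ ∀ x v,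
          C.Consistent x v → (∀ s', ¬ C.Plain s' → lev s' ≤ lev s - 1 → z s' = v s') →
          M.eval x = Circuit.node x v (C.src s i) := by
        intro i
        apply exists_exp_node C lev hpos hlev z (lev s - 1)
        intro g hg
        have := hlev s i g hg
        omega
      choose P hP hPe using hnode
      have hS' : ∀ s', ¬ C.Plain s' → s' ∈ insert s S ∨ s' ∈ rest := by
        intro s' hs'
        rcases hS s' hs' with h | h
        · exact Or.inl (Set.mem_insert_of_mem _ h)
        · rcases List.mem_cons.mp h with h | h
          · exact Or.inl (by rw [h]; exact Set.mem_insert _ _)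
          · exact Or.inr h
      obtain ⟨D0, hD0, hD0e⟩ := ih hsort.2 (fun s' h => hm s' (List.mem_cons_of_mem _ h))
        (Function.update z s false) (insert s S) hS'
      obtain ⟨D1, hD1, hD1e⟩ := ih hsort.2 (fun s' h => hm s' (List.mem_cons_of_mem _ h))
        (Function.update z s true) (insert s S) hS'
      refine ⟨.node (C.arity s) P (C.fn s) D0 D1, ?_, fun x v hx hz => ?_⟩
      · rw [List.length_cons]
        refine ⟨hm s (by simp), fun i => ?_, hD0, hD1⟩
        have h1 := hP i
        have h2 := hd s
        omega
      · have hval : C.fn s (fun i => (P i).eval x) = v s := by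
          rw [hx s]
          congr 1
          funext i
          refine hPe i x v hx (fun s' hs' hl => hz s' ?_)
          have h0 := hpos s
          rcases hS s' hs' with h | h
          · exact h
          · rcases List.mem_cons.mp h with h | h
            · rw [h] at hl
              omega
            · have := hsort.1 s' h
              omega
        have hupd : ∀ b, v s = b → ∀ s' ∈ insert s S, Function.update z s b s' = v s' := by
          intro b hb s' hs'
          by_cases h : s' = s
          · rw [h, Function.update_self, hb]
          · rw [Function.update_of_ne h]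
            rcases hs' with h' | h'
            · exact absurd h' h
            · exact hz s' h'
        simp only [DT.eval]
        rw [hval]
        by_cases hvs : v s = true
        · rw [if_pos hvs]
          exact hD1e x v hx (hupd true hvs)
        · rw [if_neg hvs]
          exact hD0e x v hx (hupd false (Bool.eq_false_iff.mpr hvs))

/-- the decision tree of a circuit -/
theorem exists_dt [Finite G] (C : Circuit I G) (d t m : ℕ) (hC : C.DepthLE d)
    (ht : {g | ¬ C.Plain g}.ncard ≤ t) (hm : ∀ g, ¬ C.Plain g → C.arity g ≤ m) :
    (∀ x, ∃ v, C.Consistent x v) ∧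
    ∃ (D : DT I) (k : ℕ), k ≤ t ∧ D.Fits d m k ∧
      ∀ x v, C.Consistent x v → D.eval x = v C.out := by
  classical
  obtain ⟨lev, h1, hlev⟩ := hC
  refine ⟨exists_consistent C lev d (fun g => (h1 g).2) hlev, ?_⟩
  have hfin : {g | ¬ C.Plain g}.Finite := Set.toFinite _
  have htot : Std.Total (fun a b : G => lev a ≤ lev b) := ⟨fun a b => le_total _ _⟩
  have htr : IsTrans G (fun a b : G => lev a ≤ lev b) := ⟨fun a b c => le_trans⟩
  obtain ⟨D, hD, hDe⟩ := exists_dt_list C lev d m (fun g => (h1 g).1) (fun g => (h1 g).2) hlev
    (hfin.toFinset.toList.insertionSort (fun a b => lev a ≤ lev b))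
    (List.pairwise_insertionSort _ _) (by
      intro s hs
      rw [List.mem_insertionSort, Finset.mem_toList, Set.Finite.mem_toFinset] at hs
      exact hm s hs) (fun _ => false) ∅ (by
      intro s hs
      right
      rw [List.mem_insertionSort, Finset.mem_toList, Set.Finite.mem_toFinset]
      exact hs)
  refine ⟨D, _, ?_, hD, fun x v hx => hDe x v hx (fun s hs => absurd hs (Set.notMem_empty s))⟩
  rw [List.length_insertionSort, Finset.length_toList]
  rw [Set.ncard_eq_toFinset_card _ hfin] at ht
  exact ht

end Pool.Agent.NEG
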