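import Mathlib

/-!
Boolean circuits with arbitrary gates.
-/

namespace Pool.Agent.NEG

/-- a Boolean circuit with variables `I` and gates `G`: gate `g` has `arity g` inputs, its
`i`-th input is the node `src g i`, which is a variable, a constant or a gate, and `g`
computes the function `fn g` of its inputs; the output is the gate `out` -/
structure Circuit (I G : Type) where
  arity : G → ℕ
  src : (g : G) → Fin (arity g) → (I ⊕ Bool) ⊕ G
  fn : (g : G) → (Fin (arity g) → Bool) → Bool
  out : G

namespace Circuit

variable {I G : Type}

/-- the value of a node when the variables have the values `x` and the gates the values `v` -/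
def node (x : I → Bool) (v : G → Bool) : (I ⊕ Bool) ⊕ G → Bool
  | .inl (.inl i) => x i
  | .inl (.inr b) => b
  | .inr g => v g

/-- `v` gives every gate its value on the input `x` -/
def Consistent (C : Circuit I G) (x : I → Bool) (v : G → Bool) : Prop :=
  ∀ g, v g = C.fn g (fun i => node x v (C.src g i))

/-- a plain gate: at most two inputs and a monotone function (AND, OR, a copy, a constant) -/
def Plain (C : Circuit I G) (g : G) : Prop :=
  C.arity g ≤ 2 ∧ ∀ a b : Fin (C.arity g) → Bool, (∀ i, a i = true → b i = true) →
    C.fn g a = true → C.fn g b = true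

/-- the gates have levels between `1` and `d` and every wire goes from a lower to a higher
level: the circuit is acyclic of depth at most `d` -/
def DepthLE (C : Circuit I G) (d : ℕ) : Prop :=
  ∃ lev : G → ℕ, (∀ g, 1 ≤ lev g ∧ lev g ≤ d) ∧
    ∀ g i g', C.src g i = Sum.inr g' → lev g' < lev g

end Circuit

open Classical in
/-- the circuit decides, for all bipartite graphs `H` on `2 n` vertices with parts
`{0, ..., n - 1}` and `{n, ..., 2 n - 1}`, given by the adjacency matrix, whether `H` has a
perfect matching -/
def DecidesPM {G : Type} (n : ℕ) (C : Circuit (Fin (2 * n) × Fin (2 * n)) G) : Prop :=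
  ∀ H : SimpleGraph (Fin (2 * n)),
    (∀ a b, H.Adj a b → ((a : ℕ) < n ↔ n ≤ (b : ℕ))) →
    ∀ v, C.Consistent (fun e => decide (H.Adj e.1 e.2)) v →
      (v C.out = true ↔ ∃ M : H.Subgraph, M.IsPerfectMatching)

end Pool.Agent.NEG
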