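import Pool.Agent.Lib.MP_0087d5_lc.NEG.Prot

/-!
The Karchmer-Wigderson descent for circuits with few non-monotone gates.
-/

namespace Pool.Agent.NEG
namespace Circ

variable {I : Type}

/-- is the gate a non-monotone gate -/
def bad : Gate I → Prop
  | .var _ => False
  | .const _ => False
  | .op f _ _ => ¬ Mon2 f

open Classical in
theorem nm_cons (g : Gate I) (C : Circ I) :
    nm (g :: C) = nm C + (if bad g then 1 else 0) := by
  cases g with
  | var i => simp [nm, bad]
  | const b => simp [nm, bad]
  | op f a b => by_cases h : Mon2 f <;> simp [nm, bad, h]

open Classical in
/-- the values of the non-monotone gates -/
noncomputable def trace : Circ I → (I → Bool) → List Bool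
  | [], _ => []
  | g :: C, x => if bad g then val (g :: C) x (List.length C) :: trace C x else trace C x

open Classical in
/-- the values when the values of the non-monotone gates are forced -/
noncomputable def vz : Circ I → List Bool → (I → Bool) → ℕ → Bool
  | [], _, _, _ => false
  | g :: C, z, x, j =>
      if bad g then
        (if j = List.length C then z.headD false else vz C z.tail x j)
      else
        (if j = List.length C then
          (match g with
            | .var i => x i
            | .const b => b
            | .op f a b => f (vz C z x a) (vz C z x b))
        else vz C z x j)

theorem vz_mono (C : Circ I) (z : List Bool) (j : ℕ) {x y : I → Bool}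
    (h : ∀ i, x i = true → y i = true) (hx : vz C z x j = true) : vz C z y j = true := by
  induction C generalizing z j with
  | nil => simp [vz] at hx
  | cons g C ih =>
      simp only [vz] at hx ⊢
      by_cases hb : bad g
      · rw [if_pos hb] at hx ⊢
        by_cases hj : j = List.length C
        · rw [if_pos hj] at hx ⊢
          exact hx
        · rw [if_neg hj] at hx ⊢
          exact ih _ _ hx
      · rw [if_neg hb] at hx ⊢
        by_cases hj : j = List.length C
        · rw [if_pos hj] at hx ⊢
          cases g with
          | var i => exact h i hx
          | const b => exact hx
          | op f a b =>
              have hf : Mon2 f := by simpa [bad] using hb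
              exact hf _ _ _ _ (fun h1 => ih _ _ h1) (fun h1 => ih _ _ h1) hx
        · rw [if_neg hj] at hx ⊢
          exact ih _ _ hx

theorem vz_trace (C : Circ I) (x : I → Bool) (j : ℕ) : vz C (trace C x) x j = val C x j := by
  induction C generalizing j with
  | nil => rfl
  | cons g C ih =>
      by_cases hb : bad g
      · simp only [vz, trace]
        rw [if_pos hb, if_pos hb]
        by_cases hj : j = List.length C
        · rw [if_pos hj, hj]
          rfl
        · rw [if_neg hj]
          simp only [List.tail_cons]
          rw [ih]
          simp only [val]
          rw [if_neg hj]
      · simp only [vz, trace]
        rw [if_neg hb, if_neg hb]
        simp only [val]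
        by_cases hj : j = List.length C
        · rw [if_pos hj, if_pos hj]
          cases g with
          | var i => rfl
          | const b => rfl
          | op f a b =>
              simp only []
              rw [ih, ih]
        · rw [if_neg hj, if_neg hj, ih]

theorem trace_length (C : Circ I) (x : I → Bool) : (trace C x).length = nm C := by
  induction C with
  | nil => rfl
  | cons g C ih =>
      rw [nm_cons]
      simp only [trace]
      by_cases hb : bad g
      · rw [if_pos hb, if_pos hb, List.length_cons, ih]
      · rw [if_neg hb, if_neg hb, ih]
        rfl

/-- all bit lists of a given length -/
def allZ : ℕ → List (List Bool)
  | 0 => [[]]
  | n + 1 => (allZ n).map (fun l => true :: l) ++ (allZ n).map (fun l => false :: l)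

theorem allZ_length (n : ℕ) : (allZ n).length = 2 ^ n := by
  induction n with
  | zero => rfl
  | succ n ih =>
      simp only [allZ, List.length_append, List.length_map, ih]
      ring

theorem mem_allZ (l : List Bool) : l ∈ allZ l.length := by
  induction l with
  | nil => simp [allZ]
  | cons b l ih =>
      simp only [allZ, List.length_cons, List.mem_append, List.mem_map]
      cases b
      · exact Or.inr ⟨l, ih, rfl⟩
      · exact Or.inl ⟨l, ih, rfl⟩

/-- the two inputs of a gate (meaningful for `op` gates only) -/
def ins : Gate I → ℕ × ℕ
  | .var _ => (0, 0)
  | .const _ => (0, 0)
  | .op _ a b => (a, b)

open Classical in
/-- the monotone functions attached to the inputs of the non-monotone gates -/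
noncomputable def fam : Circ I → List ((I → Bool) → Bool)
  | [] => []
  | g :: C =>
      if bad g then
        fam C ++ ((allZ (nm C)).map (fun z x => vz C z x (ins g).1) ++
          (allZ (nm C)).map (fun z x => vz C z x (ins g).2))
      else fam C

theorem fam_length (C : Circ I) : (fam C).length + 2 = 2 * 2 ^ nm C := by
  induction C with
  | nil => rfl
  | cons g C ih =>
      rw [nm_cons]
      simp only [fam]
      by_cases hb : bad g
      · rw [if_pos hb, if_pos hb]
        simp only [List.length_append, List.length_map, allZ_length]
        rw [pow_succ]
        omega
      · rw [if_neg hb, if_neg hb]
        exact ih

theorem fam_mono (C : Circ I) (U : (I → Bool) → Bool) (hU : U ∈ fam C) {x y : I → Bool}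
    (h : ∀ i, x i = true → y i = true) (hx : U x = true) : U y = true := by
  induction C with
  | nil => simp [fam] at hU
  | cons g C ih =>
      simp only [fam] at hU
      by_cases hb : bad g
      · rw [if_pos hb] at hU
        rcases List.mem_append.mp hU with hU | hU
        · exact ih hU
        rcases List.mem_append.mp hU with hU | hU
        · obtain ⟨z, _, rfl⟩ := List.mem_map.mp hU
          exact vz_mono C z _ h hx
        · obtain ⟨z, _, rfl⟩ := List.mem_map.mp hU
          exact vz_mono C z _ h hx
      · rw [if_neg hb] at hU
        exact ih hU

variable [Inhabited I]

open Classical in
/-- the descent from gate `j` -/
noncomputable def desc : Circ I → ℕ → Prot (I → Bool) (I → Bool) I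
  | [], _ => .leaf default
  | g :: C, j =>
      if j = List.length C then
        (match g with
          | .var i => .leaf i
          | .const _ => .leaf default
          | .op f a b =>
              if f true false = true then
                (if f false true = true then
                  .ali (fun x => val C x a) (desc C a) (desc C b)
                else desc C a)
              else
                (if f false true = true then desc C b
                else .bob (fun y => val C y a) (desc C b) (desc C a)))
      else desc C j

theorem depth_desc (C : Circ I) (j : ℕ) : (desc C j).depth ≤ dep C j := by
  induction C generalizing j with
  | nil => simp [desc, Prot.depth]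
  | cons g C ih =>
      simp only [desc, dep]
      by_cases hj : j = List.length C
      · rw [if_pos hj, if_pos hj]
        cases g with
        | var i => simp [Prot.depth]
        | const b => simp [Prot.depth]
        | op f a b =>
            have h1 := ih a
            have h2 := ih b
            simp only []
            by_cases h10 : f true false = true
            · rw [if_pos h10]
              by_cases h01 : f false true = true
              · rw [if_pos h01]
                simp only [Prot.depth]
                omega
              · rw [if_neg h01]
                omega
            · rw [if_neg h10]
              by_cases h01 : f false true = true
              · rw [if_pos h01]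
                omega
              · rw [if_neg h01]
                simp only [Prot.depth]
                omega
      · rw [if_neg hj, if_neg hj]
        exact ih j

theorem run_desc (C : Circ I) (j : ℕ) {x y : I → Bool} (htr : trace C x = trace C y)
    (hx : val C x j = true) (hy : val C y j = false) :
    x ((desc C j).run x y) = true ∧ y ((desc C j).run x y) = false := by
  induction C generalizing j with
  | nil => simp [val] at hx
  | cons g C ih =>
      have htr' : trace C x = trace C y := by
        simp only [trace] at htr
        by_cases hb : bad g
        · rw [if_pos hb, if_pos hb] at htr
          exact (List.cons.inj htr).2
        · rw [if_neg hb, if_neg hb] at htr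
          exact htr
      simp only [desc]
      by_cases hj : j = List.length C
      · rw [if_pos hj]
        have hnb : ¬ bad g := by
          intro hb
          simp only [trace] at htr
          rw [if_pos hb, if_pos hb] at htr
          have h1 := (List.cons.inj htr).1
          rw [← hj] at h1
          rw [hx, hy] at h1
          exact absurd h1 (by decide)
        simp only [val] at hx hy
        rw [if_pos hj] at hx hy
        cases g with
        | var i => exact ⟨hx, hy⟩
        | const b =>
            simp only [] at hx hy
            rw [hx] at hy
            exact absurd hy (by decide)
        | op f a b =>
            have hf : Mon2 f := by simpa [bad] using hnb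
            simp only [] at hx hy
            simp only []
            by_cases h10 : f true false = true
            · rw [if_pos h10]
              have hya : val C y a = false := by
                cases h : val C y a
                · rfl
                · rw [h] at hy
                  have := hf true false true (val C y b) (fun h => h)
                    (fun h => absurd h (by decide)) h10
                  rw [hy] at this
                  exact absurd this (by decide)
              by_cases h01 : f false true = true
              · rw [if_pos h01]
                have hyb : val C y b = false := by
                  cases h : val C y b
                  · rfl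
                  · rw [h] at hy
                    have := hf false true (val C y a) true (fun h => absurd h (by decide))
                      (fun h => h) h01
                    rw [hy] at this
                    exact absurd this (by decide)
                simp only [Prot.run]
                by_cases hxa : val C x a = true
                · rw [if_pos hxa]
                  exact ih a htr' hxa hya
                · rw [if_neg hxa]
                  refine ih b htr' ?_ hyb
                  cases h : val C x b
                  · exfalso
                    rw [h, Bool.eq_false_iff.mpr hxa] at hx
                    have := hf false false (val C y a) (val C y b)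
                      (fun h => absurd h (by decide)) (fun h => absurd h (by decide)) hx
                    rw [hy] at this
                    exact absurd this (by decide)
                  · rfl
              · rw [if_neg h01]
                refine ih a htr' ?_ hya
                cases h : val C x a
                · exfalso
                  rw [h] at hx
                  exact h01 (hf false (val C x b) false true (fun h => h) (fun _ => rfl) hx)
                · rfl
            · rw [if_neg h10]
              have hxb : val C x b = true := by
                cases h : val C x b
                · exfalso
                  rw [h] at hx
                  exact h10 (hf (val C x a) false true false (fun _ => rfl) (fun h => h) hx)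
                · rfl
              by_cases h01 : f false true = true
              · rw [if_pos h01]
                refine ih b htr' hxb ?_
                cases h : val C y b
                · rfl
                · rw [h] at hy
                  have := hf false true (val C y a) true (fun h => absurd h (by decide))
                    (fun h => h) h01
                  rw [hy] at this
                  exact absurd this (by decide)
              · rw [if_neg h01]
                have hxa : val C x a = true := by
                  cases h : val C x a
                  · exfalso
                    rw [h] at hx
                    exact h01 (hf false (val C x b) false true (fun h => h) (fun _ => rfl) hx)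
                  · rfl
                simp only [Prot.run]
                by_cases hya : val C y a = true
                · rw [if_pos hya]
                  refine ih b htr' hxb ?_
                  cases h : val C y b
                  · rfl
                  · rw [h, hya] at hy
                    rw [hxa, hxb, hy] at hx
                    exact absurd hx (by decide)
                · rw [if_neg hya]
                  exact ih a htr' hxa (Bool.eq_false_iff.mpr hya)
      · rw [if_neg hj]
        simp only [val] at hx hy
        rw [if_neg hj] at hx hy
        exact ih j htr' hx hy

/-- two bits to decide which input of a non-monotone gate has a forward difference -/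
noncomputable def fork (C : Circ I) (a b : ℕ) : Prot (I → Bool) (I → Bool) I :=
  .ali (fun x => val C x a)
    (.bob (fun y => val C y a) (desc C b) (desc C a))
    (desc C b)

open Classical in
/-- compare the values of the non-monotone gates, the oldest gate first; at the first
difference find an input bit, and if there is none go on with `K` -/
noncomputable def chk : Circ I → Prot (I → Bool) (I → Bool) I →
    Prot (I → Bool) (I → Bool) I
  | [], K => K
  | g :: C, K =>
      chk C (if bad g then
        .ali (fun x => val (g :: C) x (List.length C))
          (.bob (fun y => val (g :: C) y (List.length C)) K (fork C (ins g).1 (ins g).2))
          (.bob (fun y => val (g :: C) y (List.length C)) (fork C (ins g).1 (ins g).2) K)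
        else K)

theorem depth_fork (C : Circ I) (d : ℕ) (hd : ∀ j, dep C j ≤ d) (a b : ℕ) :
    (fork C a b).depth ≤ d + 2 := by
  have h1 := (depth_desc C a).trans (hd a)
  have h2 := (depth_desc C b).trans (hd b)
  simp only [fork, Prot.depth]
  omega

omit [Inhabited I] in
theorem dep_tail (g : Gate I) (C : Circ I) (d : ℕ) (hd : ∀ j, dep (g :: C) j ≤ d) (j : ℕ) :
    dep C j ≤ d := by
  by_cases hj : j = List.length C
  · -- gate numbers out of range have depth zero
    have hz : ∀ (C : Circ I) (j : ℕ), List.length C ≤ j → dep C j = 0 := by
      intro C
      induction C with
      | nil => intro j _; rfl
      | cons g C ih =>
          intro j hj
          rw [List.length_cons] at hj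
          simp only [dep]
          rw [if_neg (by omega)]
          exact ih j (by omega)
    rw [hz C j (by omega)]
    omega
  · have := hd j
    simp only [dep] at this
    rw [if_neg hj] at this
    exact this

theorem depth_chk (C : Circ I) (d : ℕ) (hd : ∀ j, dep C j ≤ d)
    (K : Prot (I → Bool) (I → Bool) I) (e : ℕ) (hK : K.depth ≤ e) (hde : d + 2 ≤ e) :
    (chk C K).depth ≤ e + 2 * nm C := by
  induction C generalizing K e with
  | nil => simpa [chk, nm] using hK
  | cons g C ih =>
      rw [nm_cons]
      simp only [chk]
      have hd' := dep_tail g C d hd
      by_cases hb : bad g
      · rw [if_pos hb, if_pos hb]
        have h1 := ih hd' (.ali (fun x => val (g :: C) x (List.length C))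
          (.bob (fun y => val (g :: C) y (List.length C)) K (fork C (ins g).1 (ins g).2))
          (.bob (fun y => val (g :: C) y (List.length C)) (fork C (ins g).1 (ins g).2) K))
          (e + 2) (by
            have h2 := depth_fork C d hd' (ins g).1 (ins g).2
            simp only [Prot.depth]
            omega) (by omega)
        omega
      · rw [if_neg hb, if_neg hb]
        exact ih hd' K e hK hde

omit [Inhabited I] in
theorem val_bad (g : Gate I) (C : Circ I) (hb : bad g) :
    ∃ f : Bool → Bool → Bool, ∀ x : I → Bool,
      val (g :: C) x (List.length C) = f (val C x (ins g).1) (val C x (ins g).2) := by
  cases g with
  | var i => exact absurd hb (by simp [bad])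
  | const b => exact absurd hb (by simp [bad])
  | op f a b =>
      refine ⟨f, fun x => ?_⟩
      simp [val, ins]

/-- the comparison either finds an input bit or shows that the traces are equal -/
theorem run_chk (C : Circ I) (K : Prot (I → Bool) (I → Bool) I) (x y : I → Bool)
    (hU : ∀ U ∈ fam C, U y = true → U x = true) :
    (trace C x = trace C y ∧ (chk C K).run x y = K.run x y) ∨
      (x ((chk C K).run x y) = true ∧ y ((chk C K).run x y) = false) := by
  induction C generalizing K with
  | nil => exact Or.inl ⟨rfl, rfl⟩
  | cons g C ih =>
      by_cases hb : bad g
      · have hfam : fam (g :: C) = fam C ++ ((allZ (nm C)).map (fun z x => vz C z x (ins g).1) ++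
          (allZ (nm C)).map (fun z x => vz C z x (ins g).2)) := by
          simp only [fam]
          rw [if_pos hb]
        have hchk : chk (g :: C) K = chk C (.ali (fun x => val (g :: C) x (List.length C))
          (.bob (fun y => val (g :: C) y (List.length C)) K (fork C (ins g).1 (ins g).2))
          (.bob (fun y => val (g :: C) y (List.length C))
            (fork C (ins g).1 (ins g).2) K)) := by
          simp only [chk]
          rw [if_pos hb]
        rw [hchk]
        have hU' : ∀ U ∈ fam C, U y = true → U x = true := by
          intro U hm
          apply hU
          rw [hfam]
          exact List.mem_append_left _ hm
        rcases ih (.ali (fun x => val (g :: C) x (List.length C))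
          (.bob (fun y => val (g :: C) y (List.length C)) K (fork C (ins g).1 (ins g).2))
          (.bob (fun y => val (g :: C) y (List.length C))
            (fork C (ins g).1 (ins g).2) K)) hU' with ⟨htr, hrun⟩ | hgood
        · rw [hrun]
          have ht : ∀ w, trace (g :: C) w = val (g :: C) w (List.length C) :: trace C w := by
            intro w
            simp only [trace]
            rw [if_pos hb]
          by_cases heq : val (g :: C) x (List.length C) = val (g :: C) y (List.length C)
          · left
            refine ⟨by rw [ht, ht, heq, htr], ?_⟩
            simp only [Prot.run]
            by_cases hxv : val (g :: C) x (List.length C) = true
            · rw [if_pos hxv, if_pos (heq ▸ hxv)]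
            · rw [if_neg hxv, if_neg (heq ▸ hxv)]
          · right
            -- the run goes to the fork
            have hfork : (Prot.ali (fun x => val (g :: C) x (List.length C))
                (.bob (fun y => val (g :: C) y (List.length C)) K
                  (fork C (ins g).1 (ins g).2))
                (.bob (fun y => val (g :: C) y (List.length C))
                  (fork C (ins g).1 (ins g).2) K)).run x y =
                (fork C (ins g).1 (ins g).2).run x y := by
              simp only [Prot.run]
              by_cases hxv : val (g :: C) x (List.length C) = true
              · rw [if_pos hxv, if_neg (fun h => heq (hxv.trans h.symm))]
              · rw [if_neg hxv, if_pos]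
                cases hy : val (g :: C) y (List.length C)
                · exact absurd ((Bool.eq_false_iff.mpr hxv).trans hy.symm) heq
                · rfl
            rw [hfork]
            have hz : trace C x ∈ allZ (nm C) := by
              rw [← trace_length C x]
              exact mem_allZ _
            have ha : val C y (ins g).1 = true → val C x (ins g).1 = true := by
              intro h
              have := hU (fun x' => vz C (trace C x) x' (ins g).1) (by
                rw [hfam]
                apply List.mem_append_right
                apply List.mem_append_left
                exact List.mem_map.mpr ⟨trace C x, hz, rfl⟩)
              rw [htr, vz_trace] at this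
              have h2 := this h
              rw [← htr, vz_trace] at h2
              exact h2
            have hbb : val C y (ins g).2 = true → val C x (ins g).2 = true := by
              intro h
              have := hU (fun x' => vz C (trace C x) x' (ins g).2) (by
                rw [hfam]
                apply List.mem_append_right
                apply List.mem_append_right
                exact List.mem_map.mpr ⟨trace C x, hz, rfl⟩)
              rw [htr, vz_trace] at this
              have h2 := this h
              rw [← htr, vz_trace] at h2
              exact h2
            simp only [fork, Prot.run]
            have hdesc_b : val C x (ins g).1 = val C y (ins g).1 →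
                x ((desc C (ins g).2).run x y) = true ∧
                  y ((desc C (ins g).2).run x y) = false := by
              intro h1
              have hne : val C x (ins g).2 ≠ val C y (ins g).2 := by
                intro h2
                apply heq
                obtain ⟨f, hf1⟩ := val_bad g C hb
                rw [hf1, hf1, h1, h2]
              apply run_desc C _ htr
              · cases hx : val C x (ins g).2
                · cases hy : val C y (ins g).2
                  · exact absurd (hx.trans hy.symm) hne
                  · rw [hbb hy] at hx
                    exact absurd hx (by decide)
                · rfl
              · cases hy : val C y (ins g).2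
                · rfl
                · exact absurd ((hbb hy).trans hy.symm) hne
            by_cases hxa : val C x (ins g).1 = true
            · rw [if_pos hxa]
              by_cases hya : val C y (ins g).1 = true
              · rw [if_pos hya]
                exact hdesc_b (hxa.trans hya.symm)
              · rw [if_neg hya]
                exact run_desc C _ htr hxa (Bool.eq_false_iff.mpr hya)
            · rw [if_neg hxa]
              apply hdesc_b
              cases hy : val C y (ins g).1
              · exact Bool.eq_false_iff.mpr hxa
              · exact absurd (ha hy) hxa
        · exact Or.inr hgood
      · have hfam : fam (g :: C) = fam C := by
          simp only [fam]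
          rw [if_neg hb]
        have hchk : chk (g :: C) K = chk C K := by
          simp only [chk]
          rw [if_neg hb]
        rw [hchk]
        rw [hfam] at hU
        rcases ih K hU with ⟨htr, hrun⟩ | hgood
        · left
          refine ⟨?_, hrun⟩
          simp only [trace]
          rw [if_neg hb, if_neg hb]
          exact htr
        · exact Or.inr hgood

/-- the protocol of a circuit -/
noncomputable def kw (C : Circ I) (out : ℕ) : Prot (I → Bool) (I → Bool) I :=
  chk C (desc C out)

theorem depth_kw (C : Circ I) (out d : ℕ) (hd : ∀ j, dep C j ≤ d) :
    (kw C out).depth ≤ d + 2 + 2 * nm C := by
  unfold kw
  exact depth_chk C d hd _ (d + 2)
    ((depth_desc C out).trans ((hd out).trans (by omega))) le_rfl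

theorem run_kw (C : Circ I) (out : ℕ) (x y : I → Bool)
    (hU : ∀ U ∈ fam C, U y = true → U x = true)
    (hx : val C x out = true) (hy : val C y out = false) :
    x ((kw C out).run x y) = true ∧ y ((kw C out).run x y) = false := by
  unfold kw
  rcases run_chk C (desc C out) x y hU with ⟨htr, hrun⟩ | hgood
  · rw [hrun]
    exact run_desc C out htr hx hy
  · exact hgood

end Circ
end Pool.Agent.NEG
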