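import Pool.Agent.Lib.MP_0087d5_lc.NEG.Form
import Pool.Agent.Lib.MP_0087d5_lc.NEG.CircKw

/-!
The three lower bounds from the core statement on protocols.
-/

namespace Pool.Agent.NEG

/-- the core statement: a protocol of depth `c` which finds a good bit for all pairs
`(x, y)` of a one-input and a zero-input on which none of `T` monotone functions
increases from `x` to `y` has `K (T + 1) (c + 1) ≥ n` -/
def Hard (I : Type) (F : (I → Bool) → Prop) (n K : ℕ) : Prop :=
  ∀ (T c : ℕ) (U : Fin T → (I → Bool) → Bool),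
    (∀ k x y, (∀ i, x i = true → y i = true) → U k x = true → U k y = true) →
    ∀ P : Prot (I → Bool) (I → Bool) I, P.depth ≤ c →
      (∀ x y, F x → ¬ F y → (∀ k, U k y = true → U k x = true) →
        x (P.run x y) = true ∧ y (P.run x y) = false) →
      n ≤ K * (T + 1) * (c + 1)

variable {I : Type} [Inhabited I]

theorem hard_list {F : (I → Bool) → Prop} {n K : ℕ} (H : Hard I F n K) (L : List (MF I))
    (d : ℕ) (hd : ∀ g ∈ L, g.depth ≤ d)
    (hL : ∀ x y, (∀ g ∈ L, g.eval x = g.eval y) → (F x → F y)) :
    n ≤ K * (L.length + 1) * ((Nat.log 2 (L.length + 1) + 2) ^ 2 + d + 1) := by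
  have hget : ∀ i, (L.getD i (.const false)) ∈ L ∨ L.getD i (.const false) = .const false := by
    intro i
    by_cases hi : i < L.length
    · left
      rw [List.getD_eq_getElem _ _ hi]
      exact List.getElem_mem hi
    · right
      exact List.getD_eq_default _ _ (by omega)
  have hk : L.length < 2 ^ (Nat.log 2 (L.length + 1) + 1) := by
    have := Nat.lt_pow_succ_log_self (b := 2) (by norm_num) (L.length + 1)
    rw [Nat.succ_eq_add_one] at this
    omega
  refine H L.length ((Nat.log 2 (L.length + 1) + 2) ^ 2 + d)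
    (fun k x => (L.get k).eval x) ?_ (srch (fun i => L.getD i (.const false))
      (Nat.log 2 (L.length + 1) + 1) 0) ?_ ?_
  · intro k x y hxy hx
    exact MF.mono _ hxy hx
  · apply depth_srch
    intro i
    rcases hget i with h | h
    · exact hd _ h
    · simp only [h]
      simp [MF.depth]
  · intro x y hx hy hU
    apply run_srch
    · intro i _ h
      rw [Nat.zero_add] at h ⊢
      by_cases hi : i < L.length
      · simp only [List.getD_eq_getElem _ _ hi] at h ⊢
        exact hU ⟨i, hi⟩ h
      · simp only [List.getD_eq_default L (MF.const false) (show L.length ≤ i by omega)] at h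
        simp [MF.eval] at h
    · by_contra hcon
      push Not at hcon
      apply hy
      apply hL x y _ hx
      intro g hg
      obtain ⟨i, hi, rfl⟩ := List.mem_iff_getElem.mp hg
      have := hcon i (by omega)
      rw [Nat.zero_add] at this
      simp only [List.getD_eq_getElem _ _ hi] at this
      exact this

theorem lowerBounds_of_hard {F : (I → Bool) → Prop} {n K : ℕ} (H : Hard I F n K) :
    LowerBounds I F n (200 * K) := by
  refine ⟨?_, ?_, ?_⟩
  · intro T d g h hd hF
    have h1 := hard_list H (List.ofFn g) d (by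
      intro g' hg'
      rw [List.mem_ofFn] at hg'
      obtain ⟨i, rfl⟩ := hg'
      exact hd i) (by
      intro x y hxy hx
      rw [hF] at hx ⊢
      have : (fun i => (g i).eval y) = fun i => (g i).eval x := by
        funext i
        exact (hxy (g i) (by rw [List.mem_ofFn]; exact ⟨i, rfl⟩)).symm
      rw [this]
      exact hx)
    rw [List.length_ofFn] at h1
    refine h1.trans ?_
    generalize Nat.log 2 (T + 1) = l
    have h2 : (l + 2) ^ 2 + d + 1 ≤ 5 * (d + (l + 1) ^ 2) := by
      have e1 : (l + 2) ^ 2 = l * l + 4 * l + 4 := by ring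
      have e2 : (l + 1) ^ 2 = l * l + 2 * l + 1 := by ring
      rw [e1, e2]
      generalize l * l = m
      omega
    calc K * (T + 1) * ((l + 2) ^ 2 + d + 1) ≤ K * (T + 1) * (5 * (d + (l + 1) ^ 2)) :=
          Nat.mul_le_mul_left _ h2
      _ ≤ 200 * K * (T + 1) * (d + (l + 1) ^ 2) := by nlinarith [Nat.zero_le (K * (T + 1) * (d + (l + 1) ^ 2))]
  · intro C out d t hd ht hF
    have h1 := H (Circ.fam C).length (d + 2 + 2 * Circ.nm C)
      (fun k x => ((Circ.fam C).get k) x) (by
        intro k x y hxy hx
        exact Circ.fam_mono C _ (List.get_mem _ _) hxy hx)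
      (Circ.kw C out) (Circ.depth_kw C out d hd) (by
        intro x y hx hy hU
        apply Circ.run_kw
        · intro U hm h
          obtain ⟨i, hi, rfl⟩ := List.mem_iff_getElem.mp hm
          exact hU ⟨i, hi⟩ h
        · exact (hF x).mp hx
        · exact Bool.eq_false_iff.mpr (fun h => hy ((hF y).mpr h)))
    have h2 := Circ.fam_length C
    have h3 : (2 : ℕ) ^ Circ.nm C ≤ 2 ^ t := Nat.pow_le_pow_right (by norm_num) ht
    have h4 : (Circ.fam C).length + 1 ≤ 2 * 2 ^ t := by omega
    have h5 : d + 2 + 2 * Circ.nm C + 1 ≤ 3 * (d + t + 1) := by omega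
    calc n ≤ K * ((Circ.fam C).length + 1) * (d + 2 + 2 * Circ.nm C + 1) := h1
      _ ≤ K * (2 * 2 ^ t) * (3 * (d + t + 1)) :=
          Nat.mul_le_mul (Nat.mul_le_mul_left _ h4) h5
      _ ≤ 200 * K * 2 ^ t * (d + t + 1) := by
          nlinarith [Nat.zero_le (K * 2 ^ t * (d + t + 1))]
  · intro E d t hd ht hF
    obtain ⟨L, hL1, hL2, hL3⟩ := form_dets E
    have h1 := hard_list H L d (fun g hg => (hL1 g hg).trans hd) (by
      intro x y hxy hx
      rw [hF] at hx ⊢
      rw [← hL2 x y hxy]
      exact hx)
    have h2 : L.length + 1 ≤ 8 * (t + 1) := by omega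
    have h3 : Nat.log 2 (L.length + 1) ≤ Nat.log 2 (t + 1) + 3 := by
      calc Nat.log 2 (L.length + 1) ≤ Nat.log 2 ((t + 1) * 2 * 2 * 2) :=
            Nat.log_mono_right (by omega)
        _ = Nat.log 2 (t + 1) + 3 := by
            rw [Nat.log_mul_base (by norm_num) (by omega),
              Nat.log_mul_base (by norm_num) (by omega),
              Nat.log_mul_base (by norm_num) (by omega)]
    have h4 : (Nat.log 2 (L.length + 1) + 2) ^ 2 ≤ (Nat.log 2 (t + 1) + 5) ^ 2 :=
      Nat.pow_le_pow_left (by omega) 2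
    generalize Nat.log 2 (t + 1) = l at h4 ⊢
    have h5 : (l + 5) ^ 2 + d + 1 ≤ 26 * (d + (l + 1) ^ 2) := by
      have e1 : (l + 5) ^ 2 = l * l + 10 * l + 25 := by ring
      have e2 : (l + 1) ^ 2 = l * l + 2 * l + 1 := by ring
      rw [e1, e2]
      generalize l * l = m
      omega
    have h6 : L.length + 1 ≤ 6 * (t + 1) := by omega
    calc n ≤ K * (L.length + 1) * ((Nat.log 2 (L.length + 1) + 2) ^ 2 + d + 1) := h1
      _ ≤ K * (6 * (t + 1)) * (26 * (d + (l + 1) ^ 2)) :=
          Nat.mul_le_mul (Nat.mul_le_mul_left _ h6) (by omega)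
      _ ≤ 200 * K * (t + 1) * (d + (l + 1) ^ 2) := by
          nlinarith [Nat.zero_le (K * (t + 1) * (d + (l + 1) ^ 2))]

end Pool.Agent.NEG
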