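import Mathlib

/-!
Definitions for the lower bounds against circuits and formulas with few non-monotone gates.
-/

namespace Pool.Agent.NEG

/-- monotone fan-in two formulas over the variables `I`; a monotone circuit of depth `d`
unfolds to a monotone formula of depth `d` -/
inductive MF (I : Type) : Type where
  | var (i : I) : MF I
  | const (b : Bool) : MF I
  | and (p q : MF I) : MF I
  | or (p q : MF I) : MF I

namespace MF

variable {I : Type}

/-- the value of a monotone formula -/
def eval : MF I → (I → Bool) → Bool
  | var i, x => x i
  | const b, _ => b
  | and p q, x => p.eval x && q.eval x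
  | or p q, x => p.eval x || q.eval x

/-- the depth of a monotone formula -/
def depth : MF I → ℕ
  | var _ => 0
  | const _ => 0
  | and p q => max p.depth q.depth + 1
  | or p q => max p.depth q.depth + 1

end MF

/-- a binary Boolean function which is monotone in both arguments (AND, OR, the two
projections, the two constants) -/
def Mon2 (f : Bool → Bool → Bool) : Prop :=
  ∀ a b a' b' : Bool, (a = true → a' = true) → (b = true → b' = true) →
    f a b = true → f a' b' = true

/-- formulas over the full binary basis -/
inductive BF (I : Type) : Type where
  | var (i : I) : BF I
  | const (b : Bool) : BF I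
  | gate (f : Bool → Bool → Bool) (p q : BF I) : BF I

namespace BF

variable {I : Type}

/-- the value of a formula -/
def eval : BF I → (I → Bool) → Bool
  | var i, x => x i
  | const b, _ => b
  | gate f p q, x => f (p.eval x) (q.eval x)

/-- the depth of a formula -/
def depth : BF I → ℕ
  | var _ => 0
  | const _ => 0
  | gate _ p q => max p.depth q.depth + 1

open Classical in
/-- the number of non-monotone gates of a formula -/
noncomputable def nm : BF I → ℕ
  | var _ => 0
  | const _ => 0
  | gate f p q => p.nm + q.nm + (if Mon2 f then 0 else 1)

end BF

/-- gates of a circuit over the full binary basis -/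
inductive Gate (I : Type) : Type where
  | var (i : I) : Gate I
  | const (b : Bool) : Gate I
  | op (f : Bool → Bool → Bool) (a b : ℕ) : Gate I

/-- a circuit is a list of gates, the newest gate first; the gate with `k` gates below it in
the list has the number `k`, and it reads gates with smaller numbers -/
abbrev Circ (I : Type) : Type := List (Gate I)

namespace Circ

variable {I : Type}

/-- `val C x j` is the value of gate `j` of the circuit `C` on the input `x` (and `false` if
there is no such gate) -/
def val : Circ I → (I → Bool) → ℕ → Bool
  | [], _, _ => false
  | g :: C, x, j =>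
      if j = List.length C then
        (match g with
          | .var i => x i
          | .const b => b
          | .op f a b => f (val C x a) (val C x b))
      else val C x j

/-- `dep C j` is the depth of gate `j` -/
def dep : Circ I → ℕ → ℕ
  | [], _ => 0
  | g :: C, j =>
      if j = List.length C then
        (match g with
          | .var _ => 0
          | .const _ => 0
          | .op _ a b => max (dep C a) (dep C b) + 1)
      else dep C j

open Classical in
/-- the number of non-monotone gates of a circuit -/
noncomputable def nm : Circ I → ℕ
  | [] => 0
  | g :: C =>
      nm C + (match g with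
        | .var _ => 0
        | .const _ => 0
        | .op f _ _ => if Mon2 f then 0 else 1)

end Circ

/-- the three lower bounds for a Boolean function `F` (given as a predicate) with parameter `n`
and constant `K` -/
def LowerBounds (I : Type) (F : (I → Bool) → Prop) (n K : ℕ) : Prop :=
  -- (A) arbitrary functions of `T` monotone functions of depth at most `d`
  (∀ (T d : ℕ) (g : Fin T → MF I) (h : (Fin T → Bool) → Prop),
      (∀ i, (g i).depth ≤ d) → (∀ x, F x ↔ h (fun i => (g i).eval x)) →
      n ≤ K * (T + 1) * (d + (Nat.log 2 (T + 1) + 1) ^ 2)) ∧
  -- (B) circuits of depth `d` with `t` non-monotone gates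
  (∀ (C : Circ I) (out d t : ℕ), (∀ j, Circ.dep C j ≤ d) → Circ.nm C ≤ t →
      (∀ x, F x ↔ Circ.val C x out = true) → n ≤ K * 2 ^ t * (d + t + 1)) ∧
  -- (C) formulas of depth `d` with `t` non-monotone gates
  (∀ (E : BF I) (d t : ℕ), E.depth ≤ d → E.nm ≤ t → (∀ x, F x ↔ E.eval x = true) →
      n ≤ K * (t + 1) * (d + (Nat.log 2 (t + 1) + 1) ^ 2))

/-- the bipartite perfect matching function on `n + n` vertices -/
def BPM (n : ℕ) (x : Fin n × Fin n → Bool) : Prop :=
  ∃ s : Equiv.Perm (Fin n), ∀ i, x (i, s i) = true

/-- the perfect matching function on graphs with vertex set `Fin n` -/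
def PMG (n : ℕ) (x : Sym2 (Fin n) → Bool) : Prop :=
  ∃ M : (SimpleGraph.fromEdgeSet {e | x e = true}).Subgraph, M.IsPerfectMatching

end Pool.Agent.NEG
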