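import Pool.Agent.Lib.MP_0087d5_lc.NEG.Def

/-!
Deterministic two-party protocol trees, monotone formulas, Karchmer-Wigderson descent,
and the counting search: from a family of monotone shallow functions whose values differ
in the right direction, find an input bit that is one for Alice and zero for Bob.
-/

namespace Pool.Agent.NEG

/-- deterministic protocol trees: Alice holds an element of `X`, Bob one of `Y` -/
inductive Prot (X Y O : Type) : Type where
  | leaf (o : O) : Prot X Y O
  | ali (f : X → Bool) (l r : Prot X Y O) : Prot X Y O
  | bob (g : Y → Bool) (l r : Prot X Y O) : Prot X Y O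

namespace Prot

variable {X Y O : Type}

/-- the output of a protocol -/
def run : Prot X Y O → X → Y → O
  | leaf o, _, _ => o
  | ali f l r, x, y => if f x = true then l.run x y else r.run x y
  | bob g l r, x, y => if g y = true then l.run x y else r.run x y

/-- the number of bits exchanged in the worst case -/
def depth : Prot X Y O → ℕ
  | leaf _ => 0
  | ali _ l r => max l.depth r.depth + 1
  | bob _ l r => max l.depth r.depth + 1

/-- Alice sends a number below `2 ^ w` -/
def sendA : (w : ℕ) → (X → ℕ) → (ℕ → Prot X Y O) → Prot X Y O
  | 0, _, k => k 0
  | w + 1, f, k =>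
      ali (fun x => decide (f x % 2 = 1))
        (sendA w (fun x => f x / 2) (fun m => k (2 * m + 1)))
        (sendA w (fun x => f x / 2) (fun m => k (2 * m)))

/-- Bob sends a number below `2 ^ w` -/
def sendB : (w : ℕ) → (Y → ℕ) → (ℕ → Prot X Y O) → Prot X Y O
  | 0, _, k => k 0
  | w + 1, f, k =>
      bob (fun x => decide (f x % 2 = 1))
        (sendB w (fun x => f x / 2) (fun m => k (2 * m + 1)))
        (sendB w (fun x => f x / 2) (fun m => k (2 * m)))

theorem run_sendA (w : ℕ) (f : X → ℕ) (k : ℕ → Prot X Y O) (x : X) (y : Y)
    (h : f x < 2 ^ w) : (sendA w f k).run x y = (k (f x)).run x y := by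
  induction w generalizing f k with
  | zero =>
      have h0 : f x = 0 := by simpa using h
      simp only [sendA]
      rw [h0]
  | succ w ih =>
      have h2 : f x / 2 < 2 ^ w := by
        have : f x < 2 ^ w * 2 := by rw [← pow_succ]; exact h
        omega
      simp only [sendA, run]
      by_cases hp : f x % 2 = 1
      · rw [if_pos (by simpa using hp), ih _ _ h2]
        have : 2 * (f x / 2) + 1 = f x := by omega
        rw [this]
      · rw [if_neg (by simpa using hp), ih _ _ h2]
        have : 2 * (f x / 2) = f x := by omega
        rw [this]

theorem run_sendB (w : ℕ) (f : Y → ℕ) (k : ℕ → Prot X Y O) (x : X) (y : Y)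
    (h : f y < 2 ^ w) : (sendB w f k).run x y = (k (f y)).run x y := by
  induction w generalizing f k with
  | zero =>
      have h0 : f y = 0 := by simpa using h
      simp only [sendB]
      rw [h0]
  | succ w ih =>
      have h2 : f y / 2 < 2 ^ w := by
        have : f y < 2 ^ w * 2 := by rw [← pow_succ]; exact h
        omega
      simp only [sendB, run]
      by_cases hp : f y % 2 = 1
      · rw [if_pos (by simpa using hp), ih _ _ h2]
        have : 2 * (f y / 2) + 1 = f y := by omega
        rw [this]
      · rw [if_neg (by simpa using hp), ih _ _ h2]
        have : 2 * (f y / 2) = f y := by omega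
        rw [this]

theorem depth_sendA (w : ℕ) (f : X → ℕ) (k : ℕ → Prot X Y O) (D : ℕ)
    (h : ∀ m, (k m).depth ≤ D) : (sendA w f k).depth ≤ w + D := by
  induction w generalizing f k with
  | zero => simpa [sendA] using h 0
  | succ w ih =>
      simp only [sendA, depth]
      have h1 := ih (fun x => f x / 2) (fun m => k (2 * m)) (fun m => h _)
      have h2 := ih (fun x => f x / 2) (fun m => k (2 * m + 1)) (fun m => h _)
      omega

theorem depth_sendB (w : ℕ) (f : Y → ℕ) (k : ℕ → Prot X Y O) (D : ℕ)
    (h : ∀ m, (k m).depth ≤ D) : (sendB w f k).depth ≤ w + D := by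
  induction w generalizing f k with
  | zero => simpa [sendB] using h 0
  | succ w ih =>
      simp only [sendB, depth]
      have h1 := ih (fun x => f x / 2) (fun m => k (2 * m)) (fun m => h _)
      have h2 := ih (fun x => f x / 2) (fun m => k (2 * m + 1)) (fun m => h _)
      omega

end Prot

namespace MF

variable {I : Type}

theorem mono (p : MF I) {x y : I → Bool} (h : ∀ i, x i = true → y i = true)
    (hx : p.eval x = true) : p.eval y = true := by
  induction p with
  | var i => exact h i hx
  | const b => exact hx
  | and p q ihp ihq =>
      simp only [eval, Bool.and_eq_true] at hx ⊢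
      exact ⟨ihp hx.1, ihq hx.2⟩
  | or p q ihp ihq =>
      simp only [eval, Bool.or_eq_true] at hx ⊢
      rcases hx with hx | hx
      · exact Or.inl (ihp hx)
      · exact Or.inr (ihq hx)

/-- the descent protocol for the monotone Karchmer-Wigderson game of a formula -/
def desc [Inhabited I] : MF I → Prot (I → Bool) (I → Bool) I
  | var i => .leaf i
  | const _ => .leaf default
  | and p q => .bob (fun y => p.eval y) q.desc p.desc
  | or p q => .ali (fun x => p.eval x) p.desc q.desc

theorem depth_desc [Inhabited I] (p : MF I) : p.desc.depth ≤ p.depth := by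
  induction p with
  | var i => simp [desc, Prot.depth]
  | const b => simp [desc, Prot.depth]
  | and p q ihp ihq =>
      simp only [desc, Prot.depth, depth]
      omega
  | or p q ihp ihq =>
      simp only [desc, Prot.depth, depth]
      omega

theorem run_desc [Inhabited I] (p : MF I) {x y : I → Bool}
    (hx : p.eval x = true) (hy : p.eval y = false) :
    x (p.desc.run x y) = true ∧ y (p.desc.run x y) = false := by
  induction p with
  | var i => exact ⟨hx, hy⟩
  | const b => simp [eval] at hx hy; simp [hx] at hy
  | and p q ihp ihq =>
      simp only [eval, Bool.and_eq_true, Bool.and_eq_false_iff] at hx hy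
      simp only [desc, Prot.run]
      by_cases hp : p.eval y = true
      · rw [if_pos hp]
        refine ihq hx.2 ?_
        rcases hy with hy | hy
        · rw [hp] at hy; exact absurd hy (by decide)
        · exact hy
      · rw [if_neg hp]
        exact ihp hx.1 (by simpa using hp)
  | or p q ihp ihq =>
      simp only [eval, Bool.or_eq_true, Bool.or_eq_false_iff] at hx hy
      simp only [desc, Prot.run]
      by_cases hp : p.eval x = true
      · rw [if_pos hp]
        exact ihp hp hy.1
      · rw [if_neg hp]
        refine ihq ?_ hy.2
        rcases hx with hx | hx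
        · exact absurd hx hp
        · exact hx

end MF

section Search

variable {I : Type}

/-- number of ones among the values of `g a, ..., g (a + n - 1)` -/
def cnt (g : ℕ → MF I) (a n : ℕ) (x : I → Bool) : ℕ :=
  ((Finset.range n).filter (fun i => (g (a + i)).eval x = true)).card

theorem cnt_le (g : ℕ → MF I) (a n : ℕ) (x : I → Bool) : cnt g a n x ≤ n := by
  unfold cnt
  refine (Finset.card_filter_le _ _).trans ?_
  simp

theorem cnt_lt_of (g : ℕ → MF I) (a n : ℕ) (x y : I → Bool)
    (hle : ∀ i < n, (g (a + i)).eval y = true → (g (a + i)).eval x = true)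
    (hne : ∃ i < n, (g (a + i)).eval x ≠ (g (a + i)).eval y) :
    cnt g a n y < cnt g a n x := by
  unfold cnt
  apply Finset.card_lt_card
  rw [Finset.ssubset_iff_subset_ne]
  constructor
  · intro i hi
    simp only [Finset.mem_filter, Finset.mem_range] at hi ⊢
    exact ⟨hi.1, hle i hi.1 hi.2⟩
  · intro he
    obtain ⟨i, hi, hn⟩ := hne
    apply hn
    have h1 : i ∈ (Finset.range n).filter (fun i => (g (a + i)).eval y = true) ↔
        i ∈ (Finset.range n).filter (fun i => (g (a + i)).eval x = true) := by rw [he]
    simp only [Finset.mem_filter, Finset.mem_range, hi, true_and] at h1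
    cases hx : (g (a + i)).eval x <;> cases hy : (g (a + i)).eval y <;> simp_all

variable [Inhabited I]

/-- the counting search over `g a, ..., g (a + 2 ^ k - 1)` -/
def srch (g : ℕ → MF I) : (k a : ℕ) → Prot (I → Bool) (I → Bool) I
  | 0, a => (g a).desc
  | k + 1, a =>
      Prot.sendA (k + 1) (fun x => cnt g a (2 ^ k) x) (fun m =>
        .bob (fun y => decide (cnt g a (2 ^ k) y < m)) (srch g k a) (srch g k (a + 2 ^ k)))

theorem depth_srch (g : ℕ → MF I) (d : ℕ) (hd : ∀ i, (g i).depth ≤ d) (k a : ℕ) :
    (srch g k a).depth ≤ (k + 1) ^ 2 + d := by
  induction k generalizing a with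
  | zero =>
      simp only [srch]
      have := (g a).depth_desc
      have := hd a
      omega
  | succ k ih =>
      simp only [srch]
      have h1 := ih a
      have h2 := ih (a + 2 ^ k)
      refine (Prot.depth_sendA (k + 1) _ _ ((k + 1) ^ 2 + d + 1) ?_).trans ?_
      · intro m
        simp only [Prot.depth]
        omega
      · nlinarith

theorem run_srch (g : ℕ → MF I) (x y : I → Bool) (k a : ℕ)
    (hle : ∀ i < 2 ^ k, (g (a + i)).eval y = true → (g (a + i)).eval x = true)
    (hne : ∃ i < 2 ^ k, (g (a + i)).eval x ≠ (g (a + i)).eval y) :
    x ((srch g k a).run x y) = true ∧ y ((srch g k a).run x y) = false := by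
  induction k generalizing a with
  | zero =>
      simp only [srch]
      obtain ⟨i, hi, hn⟩ := hne
      have hi0 : i = 0 := by simpa using hi
      subst hi0
      have hl := hle 0 (by simp)
      rw [Nat.add_zero] at hn hl
      apply MF.run_desc
      · cases hx : (g a).eval x
        · cases hy : (g a).eval y
          · rw [hx, hy] at hn; exact absurd rfl hn
          · rw [hl hy] at hx; exact absurd hx (by decide)
        · rfl
      · cases hy : (g a).eval y
        · rfl
        · rw [hl hy, hy] at hn; exact absurd rfl hn
  | succ k ih =>
      simp only [srch]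
      have hc : cnt g a (2 ^ k) x < 2 ^ (k + 1) := by
        have := cnt_le g a (2 ^ k) x
        have h2 : (2 : ℕ) ^ (k + 1) = 2 * 2 ^ k := by ring
        have h3 : 0 < (2 : ℕ) ^ k := by positivity
        omega
      rw [Prot.run_sendA _ _ _ _ _ hc]
      simp only [Prot.run]
      have hpow : (2 : ℕ) ^ (k + 1) = 2 ^ k + 2 ^ k := by ring
      by_cases hlt : cnt g a (2 ^ k) y < cnt g a (2 ^ k) x
      · rw [if_pos (by simpa using hlt)]
        apply ih
        · intro i hi
          exact hle i (by omega)
        · by_contra hcon
          push Not at hcon
          have : cnt g a (2 ^ k) y = cnt g a (2 ^ k) x := by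
            unfold cnt
            congr 1
            apply Finset.filter_congr
            intro i hi
            rw [hcon i (Finset.mem_range.mp hi)]
          omega
      · rw [if_neg (by simpa using hlt)]
        apply ih
        · intro i hi hy
          have := hle (2 ^ k + i) (by omega)
          rw [← Nat.add_assoc] at this
          exact this hy
        · obtain ⟨i, hi, hn⟩ := hne
          by_cases hik : i < 2 ^ k
          · exfalso
            apply hlt
            apply cnt_lt_of
            · intro i hi
              exact hle i (by omega)
            · exact ⟨i, hik, hn⟩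
          · refine ⟨i - 2 ^ k, by omega, ?_⟩
            have : a + 2 ^ k + (i - 2 ^ k) = a + i := by omega
            rw [this]
            exact hn

end Search

end Pool.Agent.NEG
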